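import Pool.Agent.J4H64.UG.Stm

/-!
# Project UG: an input bit depends on one fact (UC), nets of circuits (NET), conjunctions (ANDS)
-/

set_option autoImplicit false

namespace Pool.Agent.J4H19.UG

open Finset DomAC0 Pool.Agent.J4H64.VC Pool.Agent.J4H64.UG
open scoped Classical

theorem mem_gm {m n q : ℕ} [NeZero q] {B : SimpleGraph (Fin m)} {C R : Type} [Fintype C]
    [Fintype R] (w : Ed B → ZMod q)
    (κ : Fin m × Pool.Agent.J4H64.UG.Ps C R (Multiplicative (ZMod q)) ↪ Fin n)
    (ω : Ed B → Equiv.Perm (Pool.Agent.J4H64.UG.Ps C R (Multiplicative (ZMod q))))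
    (t : Fin n × Fin n × ZMod q) : t ∈ gm w κ ω ↔
      ∃ e x, κ (sr B e, x) = t.1 ∧ κ (tg B e, ω e x) = t.2.1 ∧ w e = t.2.2 := by
  unfold gm
  rw [mem_image]
  constructor
  · rintro ⟨z, -, rfl⟩
    exact ⟨z.1, z.2, rfl, rfl, rfl⟩
  · rintro ⟨e, x, h1, h2, h3⟩
    exact ⟨(e, x), mem_univ _, Prod.ext h1 (Prod.ext h2 h3)⟩

theorem t_UC : S_UC := by
  intro m n q _ B C R _ _ w κ W t
  by_cases h : ∃ φ : Ed B × Pool.Agent.J4H64.UG.Ps C R (Multiplicative (ZMod q)) ×
      Pool.Agent.J4H64.UG.Ps C R (Multiplicative (ZMod q)),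
      κ (la (sr B) φ) = t.1 ∧ κ (lb (tg B) φ) = t.2.1 ∧ w φ.1 = t.2.2
  · obtain ⟨φ, hφ⟩ := h
    refine (uc_holds W φ).congr fun ω _ => ?_
    rw [mem_gm]
    constructor
    · intro h
      refine ⟨φ.1, φ.2.1, ?_⟩
      unfold Holds at h
      rw [h]
      exact hφ
    · rintro ⟨e, x, h3, h4, -⟩
      have h5 := κ.injective (hφ.1.trans h3.symm)
      have h6 := κ.injective (hφ.2.1.trans h4.symm)
      obtain ⟨e', x', z'⟩ := φ
      unfold la at h5
      unfold lb at h6
      simp only [Prod.mk.injEq] at h5 h6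
      have h7 : e' = e := Subtype.ext (Prod.ext h5.1 h6.1)
      subst h7
      unfold Holds
      simp only
      rw [h5.2, h6.2]
  · refine (UC.const 1 W False).congr fun ω _ => ?_
    rw [mem_gm]
    constructor
    · exact False.elim
    · rintro ⟨e, x, h1⟩
      exact h ⟨(e, x, ω e x), h1⟩

theorem t_NET : S_NET := by
  intro m n q _ B C R _ _ w κ Cc
  refine ⟨{
    val := fun v ω => Cc.nodeVal (fun t => decide (t ∈ gm w κ ω)) v
    lev := fun v => Cc.nodeDepth v
    pol := fun v => match v with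
      | Sum.inl _ => false
      | Sum.inr g => polk (Cc.kind g)
    zero := ?_
    succ := ?_ }, fun v ω => rfl, fun v => rfl⟩
  · intro v hv W
    cases v with
    | inl p =>
      refine (t_UC m n q B C R w κ W p).congr fun ω _ => ?_
      show _ ↔ decide (p ∈ gm w κ ω) = true
      rw [decide_eq_true_eq]
    | inr g =>
      exact absurd hv (Nat.one_le_iff_ne_zero.1 (one_le_depth Cc g))
  · intro v k hv
    cases v with
    | inl p => exact absurd hv (Nat.succ_ne_zero k).symm
    | inr g =>
      obtain ⟨b, hb⟩ := gate_iff Cc g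
      refine ⟨Cc.preds g, b, fun u hu => ?_, fun ω => hb _⟩
      have h1 := depth_lt Cc g u hu
      have h2 : Cc.gateDepth g = k + 1 := hv
      omega

theorem t_ANDS : S_ANDS := by
  intro E P N I _ _ T f d hf
  refine ⟨{
    val := fun v ω => match v with
      | Sum.inl u => T.val u ω
      | Sum.inr i => decide (∀ u ∈ f i, T.val u ω = true)
    lev := fun v => match v with
      | Sum.inl u => T.lev u
      | Sum.inr _ => d + 1
    pol := fun v => match v with
      | Sum.inl u => T.pol u
      | Sum.inr _ => false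
    zero := ?_
    succ := ?_ }, fun u ω => rfl, fun u => rfl, fun i => rfl, fun i ω => rfl⟩
  · intro v hv W
    cases v with
    | inl u => exact T.zero u hv W
    | inr i => exact absurd hv (Nat.succ_ne_zero d)
  · intro v k hv
    cases v with
    | inl u =>
      obtain ⟨A, b, h1, h2⟩ := T.succ u k hv
      refine ⟨A.map ⟨Sum.inl, Sum.inl_injective⟩, b, ?_, fun ω => ?_⟩
      · intro v' hv'
        obtain ⟨u', hu', rfl⟩ := Finset.mem_map.1 hv'
        exact h1 u' hu'
      · show T.val u ω = T.pol u ↔ _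
        rw [h2 ω]
        constructor
        · rintro ⟨u', hu', h3⟩
          exact ⟨Sum.inl u', Finset.mem_map.2 ⟨u', hu', rfl⟩, h3⟩
        · rintro ⟨v', hv', h3⟩
          obtain ⟨u', hu', rfl⟩ := Finset.mem_map.1 hv'
          exact ⟨u', hu', h3⟩
    | inr i =>
      have hk : d = k := Nat.succ_injective hv
      subst hk
      refine ⟨(f i).map ⟨Sum.inl, Sum.inl_injective⟩, false, ?_, fun ω => ?_⟩
      · intro v' hv'
        obtain ⟨u', hu', rfl⟩ := Finset.mem_map.1 hv'
        exact hf i u' hu'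
      · show decide (∀ u ∈ f i, T.val u ω = true) = false ↔ _
        rw [decide_eq_false_iff_not]
        constructor
        · intro h
          push Not at h
          obtain ⟨u', hu', h3⟩ := h
          exact ⟨Sum.inl u', Finset.mem_map.2 ⟨u', hu', rfl⟩, Bool.eq_false_iff.2 h3⟩
        · rintro ⟨v', hv', h3⟩ h4
          obtain ⟨u', hu', rfl⟩ := Finset.mem_map.1 hv'
          have h5 : T.val u' ω = false := h3
          rw [h4 u' hu'] at h5
          exact Bool.noConfusion h5

end Pool.Agent.J4H19.UG
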